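import Pool.Agent.H88.WR.All

set_option autoImplicit false

open Pool.Agent.H85.WMP (AttainsNorm IsMaximizing WeaklyNull HasWMP)
open Pool.Agent.H88.WR (Refl AllCompact AWR AWD)

namespace Pool.Agent.Results.MP_479f73_an.IsomorphicRanges

/-- Let `𝕜` be the real or the complex field, `E` and `F ≠ 0` Banach spaces over `𝕜`. The
following are equivalent: `(E, F')` has the weak maximizing property for every space `F'`
isomorphic to `F`; `(E', F)` has it for every space `E'` isomorphic to `E`; `E` is reflexive and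
every bounded operator from `E` to `F` is compact. -/
theorem result (𝕜 : Type) [RCLike 𝕜]
    (E : Type) [NormedAddCommGroup E] [NormedSpace 𝕜 E] [CompleteSpace E]
    (F : Type) [NormedAddCommGroup F] [NormedSpace 𝕜 F] [CompleteSpace F] [Nontrivial F] :
    (AWR 𝕜 E F ↔ Refl 𝕜 E ∧ AllCompact 𝕜 E F) ∧ (AWD 𝕜 E F ↔ Refl 𝕜 E ∧ AllCompact 𝕜 E F) :=
  Pool.Agent.H88.WR.All.tha 𝕜 E F

end Pool.Agent.Results.MP_479f73_an.IsomorphicRanges
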