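import Pool.Agent.H88.CR.All

set_option autoImplicit false

open Pool.Agent.H85.WMP (AttainsNorm IsMaximizing WeaklyNull HasWMP)
open Pool.Agent.H88.WR (Refl AllCompact)
open Pool.Agent.H88.CR (LUC SC WUC C0M LIU)

namespace Pool.Agent.Results.MP_479f73_an.RotundRanges

/-- Rotund ranges for the weak maximizing property, over the real or the complex field `𝕜`.

(1) Let `E`, `F ≠ 0` be Banach spaces, `F` uniformly convex (locally uniformly convex, strictly
convex). The pair `(E, F')` has the weak maximizing property for all `F'` isomorphic to `F` with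
the same convexity if and only if `E` is reflexive and all operators from `E` to `F` are compact.

(2) A Banach space `E` is finite-dimensional if and only if `(E, F)` has the weak maximizing
property for all separable reflexive `F` which are locally uniformly convex and weakly uniformly
convex.

(3) There is an infinite-dimensional Banach space `E` such that `(E, F)` has the weak maximizing
property for all Banach spaces `F` in which no seminormalized sequence has upper `c_0` estimates
on the sets `s` with `#s ≤ min s`; all uniformly convex spaces, and all spaces which do not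
contain the `ℓ_∞^n` uniformly, are such spaces `F`. -/
theorem result (𝕜 : Type) [RCLike 𝕜] :
    (∀ (E : Type) [NormedAddCommGroup E] [NormedSpace 𝕜 E] [CompleteSpace E]
      (F : Type) [NormedAddCommGroup F] [NormedSpace 𝕜 F] [CompleteSpace F] [Nontrivial F],
      (UniformConvexSpace F →
        ((∀ (F' : Type) [NormedAddCommGroup F'] [NormedSpace 𝕜 F'], Nonempty (F' ≃L[𝕜] F) →
          UniformConvexSpace F' → HasWMP 𝕜 E F') ↔ Refl 𝕜 E ∧ AllCompact 𝕜 E F)) ∧
      (LUC F →
        ((∀ (F' : Type) [NormedAddCommGroup F'] [NormedSpace 𝕜 F'], Nonempty (F' ≃L[𝕜] F) →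
          LUC F' → HasWMP 𝕜 E F') ↔ Refl 𝕜 E ∧ AllCompact 𝕜 E F)) ∧
      (SC F →
        ((∀ (F' : Type) [NormedAddCommGroup F'] [NormedSpace 𝕜 F'], Nonempty (F' ≃L[𝕜] F) →
          SC F' → HasWMP 𝕜 E F') ↔ Refl 𝕜 E ∧ AllCompact 𝕜 E F))) ∧
    (∀ (E : Type) [NormedAddCommGroup E] [NormedSpace 𝕜 E] [CompleteSpace E],
      (∀ (F : Type) [NormedAddCommGroup F] [NormedSpace 𝕜 F] [CompleteSpace F], Refl 𝕜 F →
        TopologicalSpace.SeparableSpace F → LUC F → WUC 𝕜 F → HasWMP 𝕜 E F) ↔
        FiniteDimensional 𝕜 E) ∧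
    (∃ (E : Type) (_ : NormedAddCommGroup E) (_ : NormedSpace 𝕜 E) (_ : CompleteSpace E),
      ¬ FiniteDimensional 𝕜 E ∧
      ∀ (F : Type) [NormedAddCommGroup F] [NormedSpace 𝕜 F] [CompleteSpace F], ¬ C0M 𝕜 F →
        HasWMP 𝕜 E F) ∧
    ∀ (F : Type) [NormedAddCommGroup F] [NormedSpace 𝕜 F],
      (UniformConvexSpace F → ¬ C0M 𝕜 F) ∧ (C0M 𝕜 F → LIU 𝕜 F) :=
  ⟨Pool.Agent.H88.CR.All.th1 𝕜, Pool.Agent.H88.CR.All.th2 𝕜,
    (Pool.Agent.H88.CR.All.th3 𝕜).1, (Pool.Agent.H88.CR.All.th3 𝕜).2⟩

end Pool.Agent.Results.MP_479f73_an.RotundRanges
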