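import Pool.Agent.H88.WR.All

set_option autoImplicit false

open Pool.Agent.H85.WMP (AttainsNorm IsMaximizing WeaklyNull HasWMP)
open Pool.Agent.H88.WR (Refl AllCompact HasC0 AWR)

namespace Pool.Agent.Results.MP_479f73_an.SeparableTestRanges

/-- Let `𝕜` be the real or the complex field and `F` a separable Banach space over `𝕜`. The
following are equivalent: `F` contains `c_0` isomorphically; there is ONE space `F'` isomorphic to
`F` which tests all domains, that is `(E, F')` has the weak maximizing property exactly for the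
finite dimensional `E`; for every infinite dimensional `E` some space isomorphic to `F` shows the
failure; every infinite dimensional reflexive space admits a noncompact operator into `F`. -/
theorem result (𝕜 : Type) [RCLike 𝕜]
    (F : Type) [NormedAddCommGroup F] [NormedSpace 𝕜 F] [CompleteSpace F]
    [TopologicalSpace.SeparableSpace F] :
    (HasC0 𝕜 F ↔ ∃ (F' : Type) (_ : NormedAddCommGroup F') (_ : NormedSpace 𝕜 F')
      (_ : F' ≃L[𝕜] F), ∀ (E : Type) [NormedAddCommGroup E] [NormedSpace 𝕜 E]
        [CompleteSpace E], HasWMP 𝕜 E F' ↔ FiniteDimensional 𝕜 E) ∧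
    (HasC0 𝕜 F ↔ ∀ (E : Type) [NormedAddCommGroup E] [NormedSpace 𝕜 E] [CompleteSpace E],
      ¬ FiniteDimensional 𝕜 E → ¬ AWR 𝕜 E F) ∧
    (HasC0 𝕜 F ↔ ∀ (E : Type) [NormedAddCommGroup E] [NormedSpace 𝕜 E] [CompleteSpace E],
      ¬ FiniteDimensional 𝕜 E → Refl 𝕜 E → ¬ AllCompact 𝕜 E F) :=
  Pool.Agent.H88.WR.All.thb 𝕜 F

end Pool.Agent.Results.MP_479f73_an.SeparableTestRanges
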