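import Mathlib
import Pool.Agent.H85.WMPDefs
import Pool.Agent.H55.WM.Enc
import Pool.Agent.H55.WM.Main

set_option autoImplicit false

open Filter Topology Set
open Pool.Agent.H85.WMP (AttainsNorm IsMaximizing WeaklyNull HasWMP)

namespace Pool.Agent.Results.MP_479f73_an.SingleRange

/-- Let `F` be a normed space which contains a linear isometric copy of `C(K)` for some infinite
compact Hausdorff space `K`. Then `(E, F)` has the weak maximizing property if and only if `E` is
finite dimensional. -/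
theorem result (𝕜 : Type*) [RCLike 𝕜] (E : Type*) [NormedAddCommGroup E] [NormedSpace 𝕜 E]
    (F : Type*) [NormedAddCommGroup F] [NormedSpace 𝕜 F]
    (K : Type*) [TopologicalSpace K] [CompactSpace K] [T2Space K] [Infinite K]
    (J : C(K, 𝕜) →ₗᵢ[𝕜] F) : HasWMP 𝕜 E F ↔ FiniteDimensional 𝕜 E := by
  constructor
  · intro hW
    refine Pool.Agent.H55.WM.finiteDimensional_of_wmp hW ?_
    intro k f hk hkf
    obtain ⟨T, hT⟩ := Pool.Agent.H55.WM.enc_CK 𝕜 E K k f hk hkf
    refine ⟨J.toContinuousLinearMap.comp T, fun x => ?_⟩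
    have h1 : ‖(J.toContinuousLinearMap.comp T) x‖ = ‖T x‖ := J.norm_map (T x)
    rw [h1]
    exact hT x
  · intro hfin T
    rintro ⟨x, ⟨hx1, hx2⟩, -⟩
    haveI : ProperSpace E := FiniteDimensional.proper 𝕜 E
    obtain ⟨z, hz, φ, hφ, hφz⟩ := (isCompact_sphere (0 : E) 1).tendsto_subseq
      (fun n => by simpa using hx1 n : ∀ n, x n ∈ Metric.sphere (0 : E) 1)
    refine ⟨z, by simpa using hz, ?_⟩
    have h1 : Tendsto (fun n => ‖T (x (φ n))‖) atTop (𝓝 ‖T z‖) :=
      ((T.continuous.tendsto z).comp hφz).norm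
    exact tendsto_nhds_unique h1 (hx2.comp hφ.tendsto_atTop)

end Pool.Agent.Results.MP_479f73_an.SingleRange
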